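import Pool.Agent.Helper51.CD.Triv
import Pool.Agent.Helper51.CD.Euler

/-!
# BL: dimensions in short exact sequences of complexes
-/

open Finset Pool.Agent.Helper51.CD

namespace Pool.Agent.Helper32.BL

section

variable {E E' : Type} [AddCommGroup E] [Module ℚ E] [AddCommGroup E'] [Module ℚ E']

theorem rk [FiniteDimensional ℚ E] (g : E →ₗ[ℚ] E') (Z : Submodule ℚ E) :
    Module.finrank ℚ Z = Module.finrank ℚ (Z.map g) +
      Module.finrank ℚ (Z ⊓ LinearMap.ker g : Submodule ℚ E) := by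
  have h1 := LinearMap.finrank_range_add_finrank_ker (g.domRestrict Z)
  rw [LinearMap.range_domRestrict, LinearMap.ker_domRestrict] at h1
  have h2 : Module.finrank ℚ (Submodule.comap Z.subtype (LinearMap.ker g)) =
      Module.finrank ℚ (Z ⊓ LinearMap.ker g : Submodule ℚ E) := by
    have h3 : Submodule.comap Z.subtype (LinearMap.ker g) =
        Submodule.comap Z.subtype (Z ⊓ LinearMap.ker g) := by
      ext c
      simp
    rw [h3]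
    exact (Submodule.comapSubtypeEquivOfLe (inf_le_left : Z ⊓ LinearMap.ker g ≤ Z)).finrank_eq
  omega

theorem dim_le [FiniteDimensional ℚ E] [FiniteDimensional ℚ E'] (P : E →ₗ[ℚ] E')
    (Z B : Submodule ℚ E) (Z' B' : Submodule ℚ E') (hB : B ≤ Z) (hB' : B' ≤ Z')
    (h1 : ∀ z ∈ Z, P z ∈ Z') (h2 : ∀ z ∈ Z, P z ∈ B' → z ∈ B) (h3 : ∀ z ∈ B, P z ∈ B') :
    Module.finrank ℚ Z + Module.finrank ℚ B' ≤ Module.finrank ℚ Z' + Module.finrank ℚ B := by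
  have e1 := rk (B'.mkQ ∘ₗ P) Z
  have e2 := rk B'.mkQ Z'
  have k1 : Z ⊓ LinearMap.ker (B'.mkQ ∘ₗ P) = B := by
    ext z
    rw [Submodule.mem_inf, LinearMap.mem_ker, LinearMap.comp_apply, Submodule.mkQ_apply,
      Submodule.Quotient.mk_eq_zero]
    exact ⟨fun h => h2 z h.1 h.2, fun h => ⟨hB h, h3 z h⟩⟩
  have k2 : Z' ⊓ LinearMap.ker B'.mkQ = B' := by
    rw [Submodule.ker_mkQ]
    exact inf_eq_right.2 hB'
  rw [k1] at e1
  rw [k2] at e2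
  have e3 : Module.finrank ℚ (Z.map (B'.mkQ ∘ₗ P)) ≤ Module.finrank ℚ (Z'.map B'.mkQ) := by
    apply Submodule.finrank_mono
    rintro _ ⟨z, hz, rfl⟩
    exact ⟨P z, h1 z hz, rfl⟩
  omega

theorem dim_eq [FiniteDimensional ℚ E] [FiniteDimensional ℚ E'] (P : E →ₗ[ℚ] E')
    (Z B : Submodule ℚ E) (Z' B' : Submodule ℚ E') (hB : B ≤ Z) (hB' : B' ≤ Z')
    (h1 : ∀ z ∈ Z, P z ∈ Z') (h2 : ∀ z ∈ Z, P z ∈ B' → z ∈ B) (h3 : ∀ z ∈ B, P z ∈ B')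
    (h4 : ∀ z' ∈ Z', ∃ z ∈ Z, P z - z' ∈ B') :
    Module.finrank ℚ Z + Module.finrank ℚ B' = Module.finrank ℚ Z' + Module.finrank ℚ B := by
  have e1 := rk (B'.mkQ ∘ₗ P) Z
  have e2 := rk B'.mkQ Z'
  have k1 : Z ⊓ LinearMap.ker (B'.mkQ ∘ₗ P) = B := by
    ext z
    rw [Submodule.mem_inf, LinearMap.mem_ker, LinearMap.comp_apply, Submodule.mkQ_apply,
      Submodule.Quotient.mk_eq_zero]
    exact ⟨fun h => h2 z h.1 h.2, fun h => ⟨hB h, h3 z h⟩⟩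
  have k2 : Z' ⊓ LinearMap.ker B'.mkQ = B' := by
    rw [Submodule.ker_mkQ]
    exact inf_eq_right.2 hB'
  rw [k1] at e1
  rw [k2] at e2
  have e3 : Z.map (B'.mkQ ∘ₗ P) = Z'.map B'.mkQ := by
    apply le_antisymm
    · rintro _ ⟨z, hz, rfl⟩
      exact ⟨P z, h1 z hz, rfl⟩
    · rintro _ ⟨z', hz', rfl⟩
      obtain ⟨z, hz, hzz⟩ := h4 z' hz'
      refine ⟨z, hz, ?_⟩
      rw [LinearMap.comp_apply, Submodule.mkQ_apply, Submodule.mkQ_apply]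
      exact (Submodule.Quotient.eq B').2 hzz
  rw [e3] at e1
  omega

end

section

variable {W1 W2 W3 : Type} [AddCommGroup W1] [Module ℚ W1] [AddCommGroup W2] [Module ℚ W2]
    [AddCommGroup W3] [Module ℚ W3] {K1 : GC W1} {K2 : GC W2} {K3 : GC W3} {d : ℤ}

/-- cocycles -/
noncomputable def Zc {W : Type} [AddCommGroup W] [Module ℚ W] (K : GC W) (d : ℤ) :
    Submodule ℚ W := K.C d ⊓ LinearMap.ker K.D

/-- coboundaries -/
noncomputable def Bc {W : Type} [AddCommGroup W] [Module ℚ W] (K : GC W) (d : ℤ) :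
    Submodule ℚ W := (K.C (d - 1)).map K.D

theorem mem_Zc {W : Type} [AddCommGroup W] [Module ℚ W] {K : GC W} {d : ℤ} {c : W} :
    c ∈ Zc K d ↔ c ∈ K.C d ∧ K.D c = 0 := by
  unfold Zc
  rw [Submodule.mem_inf, LinearMap.mem_ker]

theorem mem_Bc {W : Type} [AddCommGroup W] [Module ℚ W] {K : GC W} {d : ℤ} {c : W} :
    c ∈ Bc K d ↔ ∃ b ∈ K.C (d - 1), K.D b = c := by
  unfold Bc
  rw [Submodule.mem_map]

theorem Bc_le {W : Type} [AddCommGroup W] [Module ℚ W] (K : GC W) (d : ℤ) : Bc K d ≤ Zc K d := by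
  intro c hc
  obtain ⟨b, hb, rfl⟩ := mem_Bc.1 hc
  refine mem_Zc.2 ⟨?_, K.hDD _ b hb⟩
  have := K.hD (d - 1) b hb
  rwa [sub_add_cancel] at this

theorem ses_map_Z (S : SES K1 K2 K3) {z : W2} (hz : z ∈ Zc K2 d) : S.Ψ z ∈ Zc K3 d := by
  obtain ⟨h1, h2⟩ := mem_Zc.1 hz
  refine mem_Zc.2 ⟨S.hΨ d z h1, ?_⟩
  rw [← S.cΨ d z h1, h2, map_zero]

theorem ses_map_B (S : SES K1 K2 K3) {z : W2} (hz : z ∈ Bc K2 d) : S.Ψ z ∈ Bc K3 d := by
  obtain ⟨b, hb, rfl⟩ := mem_Bc.1 hz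
  exact mem_Bc.2 ⟨S.Ψ b, S.hΨ _ b hb, (S.cΨ _ b hb).symm⟩

theorem ses_ker (S : SES K1 K2 K3) (h1 : K1.Ex d) {z : W2} (hz : z ∈ Zc K2 d)
    (hb : S.Ψ z ∈ Bc K3 d) : z ∈ Bc K2 d := by
  obtain ⟨hz1, hz2⟩ := mem_Zc.1 hz
  obtain ⟨b3, hb3, e3⟩ := mem_Bc.1 hb
  obtain ⟨b2, hb2, e2⟩ := S.lift (d - 1) b3 hb3
  have hDb2 : K2.D b2 ∈ K2.C d := by
    have := K2.hD (d - 1) b2 hb2
    rwa [sub_add_cancel] at this
  obtain ⟨a, ha, e1⟩ := S.ker d (z - K2.D b2) ((K2.C d).sub_mem hz1 hDb2) (by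
    rw [map_sub, S.cΨ (d - 1) b2 hb2, e2, e3, sub_self])
  have hDa : K1.D a = 0 := by
    apply S.inj (d + 1) _ (K1.hD d a ha)
    rw [S.cΦ d a ha, e1, map_sub, hz2, K2.hDD (d - 1) b2 hb2, sub_self]
  obtain ⟨a', ha', e4⟩ := h1 a ha hDa
  refine mem_Bc.2 ⟨b2 + S.Φ a', (K2.C (d - 1)).add_mem hb2 (S.hΦ (d - 1) a' ha'), ?_⟩
  rw [map_add, ← S.cΦ (d - 1) a' ha', e4, e1]
  abel

theorem ses_surj (S : SES K1 K2 K3) (h1 : K1.Ex (d + 1)) {z : W3} (hz : z ∈ Zc K3 d) :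
    ∃ y ∈ Zc K2 d, S.Ψ y - z ∈ Bc K3 d := by
  obtain ⟨hz1, hz2⟩ := mem_Zc.1 hz
  obtain ⟨c2, hc2, e2⟩ := S.lift d z hz1
  obtain ⟨c1, hc1, e1⟩ := S.ker (d + 1) (K2.D c2) (K2.hD d c2 hc2) (by
    rw [S.cΨ d c2 hc2, e2, hz2])
  have hDc1 : K1.D c1 = 0 := by
    apply S.inj (d + 1 + 1) _ (K1.hD (d + 1) c1 hc1)
    rw [S.cΦ (d + 1) c1 hc1, e1, K2.hDD d c2 hc2]
  obtain ⟨b1, hb1, e4⟩ := h1 c1 hc1 hDc1
  rw [add_sub_cancel_right] at hb1
  refine ⟨c2 - S.Φ b1, mem_Zc.2 ⟨(K2.C d).sub_mem hc2 (S.hΦ d b1 hb1), ?_⟩, ?_⟩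
  · rw [map_sub, ← S.cΦ d b1 hb1, e4, e1, sub_self]
  · rw [map_sub, e2, S.ΨΦ d b1 hb1, sub_zero, sub_self]
    exact Submodule.zero_mem _

theorem ses_le [FiniteDimensional ℚ W2] [FiniteDimensional ℚ W3] (S : SES K1 K2 K3)
    (h1 : K1.Ex d) :
    Module.finrank ℚ (Zc K2 d) + Module.finrank ℚ (Bc K3 d) ≤
      Module.finrank ℚ (Zc K3 d) + Module.finrank ℚ (Bc K2 d) :=
  dim_le S.Ψ _ _ _ _ (Bc_le K2 d) (Bc_le K3 d) (fun _ hz => ses_map_Z S hz)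
    (fun _ hz hb => ses_ker S h1 hz hb) (fun _ hz => ses_map_B S hz)

theorem ses_eq [FiniteDimensional ℚ W2] [FiniteDimensional ℚ W3] (S : SES K1 K2 K3)
    (h1 : K1.Ex d) (h2 : K1.Ex (d + 1)) :
    Module.finrank ℚ (Zc K2 d) + Module.finrank ℚ (Bc K3 d) =
      Module.finrank ℚ (Zc K3 d) + Module.finrank ℚ (Bc K2 d) :=
  dim_eq S.Ψ _ _ _ _ (Bc_le K2 d) (Bc_le K3 d) (fun _ hz => ses_map_Z S hz)
    (fun _ hz hb => ses_ker S h1 hz hb) (fun _ hz => ses_map_B S hz)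
    (fun _ hz => ses_surj S h2 hz)

end

variable {X : Type} [LinearOrder X]
variable {V : Type} [AddCommGroup V] [Module ℚ V]
variable {F : Set (Finset X)} {s : X → Module.End ℚ V} {d : ℤ}

/-- The dimension of the cohomology of degree `d`. -/
noncomputable def hd (F : Set (Finset X)) (s : X → Module.End ℚ V) (d : ℤ) : ℤ :=
  (Module.finrank ℚ (eulZ F s d) : ℤ) - Module.finrank ℚ (eulB F s d)

theorem hd_le [Fintype X] [FiniteDimensional ℚ V] (h : Ok F s) (u : X)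
    (e : ExAt {τ | τ ∈ F ∧ u ∈ τ} (tw {u} s) d) : hd F (Function.update s u 1) d ≤ hd F s d := by
  have := ses_le (sesTriv h u) e
  change Module.finrank ℚ (eulZ F (Function.update s u 1) d) + Module.finrank ℚ (eulB F s d) ≤
    Module.finrank ℚ (eulZ F s d) + Module.finrank ℚ (eulB F (Function.update s u 1) d) at this
  unfold hd
  omega

theorem hd_eq [Fintype X] [FiniteDimensional ℚ V] (h : Ok F s) (u : X)
    (e : ExAt {τ | τ ∈ F ∧ u ∈ τ} (tw {u} s) d)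
    (e' : ExAt {τ | τ ∈ F ∧ u ∈ τ} (tw {u} s) (d + 1)) :
    hd F (Function.update s u 1) d = hd F s d := by
  have := ses_eq (sesTriv h u) e e'
  change Module.finrank ℚ (eulZ F (Function.update s u 1) d) + Module.finrank ℚ (eulB F s d) =
    Module.finrank ℚ (eulZ F s d) + Module.finrank ℚ (eulB F (Function.update s u 1) d) at this
  unfold hd
  omega

theorem hd_of_ex (h : Ok F s) (e : ExAt F s d) : hd F s d = 0 := by
  unfold hd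
  rw [le_antisymm (eul_Z_le_B e) (eul_B_le_Z h), sub_self]

end Pool.Agent.Helper32.BL
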