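import Pool.Agent.Helper51.CD.VanishRel
import Pool.Agent.Helper32.BL.Dim

/-!
# BL: comparison with constant coefficients
-/

open Finset Pool.Agent.Helper51.CD

namespace Pool.Agent.Helper32.BL

variable {X : Type} [LinearOrder X]
variable {V : Type} [AddCommGroup V] [Module ℚ V]
variable {F F1 : Set (Finset X)} {s : X → Module.End ℚ V} {d : ℤ}

/-- the inner statement of `lower_rel` -/
theorem lower_van [Fintype X] {G : SimpleGraph X} (hs : IsSys G s) (n : ℕ) (ρ₀ : Finset X)
    (hdim : ∀ τ : Finset X, G.IsClique (τ : Set X) → τ.card ≤ 2 * n)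
    (hg : ∀ ρ : Finset X, G.IsClique (ρ : Set X) → ρ₀ ⊆ ρ → Odd ρ.card → ∀ (S : Set X) (d : ℤ),
      ExAt (fam G ρ univ) (tw S s) d)
    (hb : ∀ ρ : Finset X, G.IsClique (ρ : Set X) → ρ₀ ⊆ ρ → Even ρ.card → ∀ (t : X → Module.End ℚ V),
      IsSys G t → (∀ x, x ∉ ρ → t x = 1) → ∀ d : ℤ, 2 * d < 2 * n + ρ.card →
      ExAt (fam G ρ univ) t d) :
    ∀ ρ : Finset X, G.IsClique (ρ : Set X) → ρ₀ ⊆ ρ → ∀ T : Finset X, Disjoint T ρ →
      ∀ (S : Set X) (d : ℤ),
      2 * d < 2 * n + ρ.card → ExAt (fam G ρ univ) (vanSys T S s) d := by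
  have main : ∀ m : ℕ, ∀ ρ : Finset X, 2 * n - ρ.card = m → G.IsClique (ρ : Set X) → ρ₀ ⊆ ρ →
      ∀ (T : Finset X), Disjoint T ρ → ∀ (S : Set X) (d : ℤ),
      2 * d < 2 * n + ρ.card → ExAt (fam G ρ univ) (vanSys T S s) d := by
    intro m
    induction m using Nat.strong_induction_on with
    | _ m ih =>
    intro ρ hm hρ hρ₀
    have hcard := hdim ρ hρ
    have hnew : ∀ (u : X), u ∉ ρ → ∀ (T : Finset X), Disjoint T ρ → u ∉ T → ∀ (S : Set X)
        (e : ℤ), 2 * e < 2 * n + (ρ.card + 1) →
        ExAt {τ | τ ∈ fam G ρ univ ∧ u ∈ τ} (tw {u} (vanSys T S s)) e := by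
      intro u hu T hT huT S e he
      rw [van_fam_mem]
      obtain ⟨S', hS'⟩ := vanSys_tw (s := s) T S huT
      rw [hS']
      by_cases hc : G.IsClique ((insert u ρ : Finset X) : Set X)
      · have h1 : (insert u ρ).card = ρ.card + 1 := card_insert_of_notMem hu
        have h2 := hdim _ hc
        refine ih (2 * n - (insert u ρ).card) (by omega) (insert u ρ) rfl hc
          (hρ₀.trans (subset_insert u ρ)) T ?_ S' e ?_
        · rw [disjoint_insert_right]
          exact ⟨huT, hT⟩
        · rw [h1]
          push_cast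
          linarith
      · rw [van_fam_empty hc]
        exact van_ex_empty
    rcases Nat.even_or_odd ρ.card with hev | hod
    · -- even: start from the complement of ρ
      have hall : ∀ B : Finset X, Disjoint B ρ → ∀ (S : Set X) (d : ℤ),
          2 * d < 2 * n + ρ.card → ExAt (fam G ρ univ) (vanSys (ρᶜ \ B) S s) d := by
        intro B
        induction B using Finset.induction_on with
        | empty =>
          intro _ S d hd
          rw [sdiff_empty]
          refine hb ρ hρ hρ₀ hev _ (vanSys_isSys hs _ S) (fun x hx => ?_) d hd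
          unfold vanSys
          rw [if_pos (mem_compl.2 hx)]
        | insert u B huB ihB =>
          intro hB S d hd
          obtain ⟨hu, hB'⟩ := disjoint_insert_left.1 hB
          have hI := ihB hB' S d hd
          have h1 : insert u (ρᶜ \ insert u B) = ρᶜ \ B := by
            ext x
            simp only [mem_insert, mem_compl, mem_sdiff]
            constructor
            · rintro (h2 | h2)
              · rw [h2]
                exact ⟨hu, huB⟩
              · exact ⟨h2.1, fun h3 => h2.2 (Or.inr h3)⟩
            · intro h2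
              by_cases h3 : x = u
              · exact Or.inl h3
              · exact Or.inr ⟨h2.1, fun h4 => h4.elim h3 h2.2⟩
          have h2 : u ∉ ρᶜ \ insert u B := by
            intro h3
            exact (mem_sdiff.1 h3).2 (mem_insert_self u B)
          rw [← h1, ← vanSys_update] at hI
          refine triv_down (van_ok (vanSys_isSys hs _ S) ρ univ) u hI ?_
          refine hnew u hu _ ?_ h2 S (d + 1) ?_
          · exact Disjoint.mono_left sdiff_subset disjoint_compl_left
          · obtain ⟨q, hq⟩ := hev
            have h5 : (ρ.card : ℤ) = q + q := by exact_mod_cast hq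
            rw [h5] at hd ⊢
            omega
      intro T hT S d hd
      have h1 : ρᶜ \ (ρᶜ \ T) = T := by
        rw [sdiff_sdiff_right_self]
        apply inf_eq_right.2
        intro x hx
        rw [mem_compl]
        exact fun h => (disjoint_left.1 hT hx h)
      have h2 := hall (ρᶜ \ T) (Disjoint.mono_left sdiff_subset disjoint_compl_left) S d hd
      rw [h1] at h2
      exact h2
    · -- odd: start from the empty set
      intro T
      induction T using Finset.induction_on with
      | empty =>
        intro _ S d _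
        rw [vanSys_empty]
        exact hg ρ hρ hρ₀ hod S d
      | insert u T huT ihT =>
        intro hT S d hd
        obtain ⟨hu, hT'⟩ := disjoint_insert_left.1 hT
        rw [← vanSys_update]
        refine triv_up (van_ok (vanSys_isSys hs _ S) ρ univ) u (ihT hT' S d hd) ?_
        refine hnew u hu T hT' huT S d ?_
        linarith
  intro ρ hρ hρ₀ T hT S d hd
  exact main _ ρ rfl hρ hρ₀ T hT S d hd

/-- Comparison of the cohomology of a system of reflections with that of the trivial system. -/
theorem compare [Fintype X] [FiniteDimensional ℚ V] {G : SimpleGraph X} (hs : IsSys G s) (n : ℕ)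
    (hdim : ∀ τ : Finset X, G.IsClique (τ : Set X) → τ.card ≤ 2 * n)
    (hg : ∀ ρ : Finset X, G.IsClique (ρ : Set X) → Odd ρ.card → ∀ (S : Set X) (d : ℤ),
      ExAt (fam G ρ univ) (tw S s) d)
    (hb : ∀ ρ : Finset X, G.IsClique (ρ : Set X) → ρ.Nonempty → Even ρ.card →
      ∀ (t : X → Module.End ℚ V), IsSys G t → (∀ x, x ∉ ρ → t x = 1) →
      ∀ d : ℤ, 2 * d < 2 * n + ρ.card → ExAt (fam G ρ univ) t d) (S : Set X) :
    (∀ d : ℤ, d < n → hd (fam G ∅ univ) (fun _ => (1 : Module.End ℚ V)) d =
      hd (fam G ∅ univ) (tw S s) d) ∧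
    hd (fam G ∅ univ) (fun _ => (1 : Module.End ℚ V)) n ≤ hd (fam G ∅ univ) (tw S s) n := by
  classical
  have key : ∀ B : Finset X,
      (∀ d : ℤ, d < n → hd (fam G ∅ univ) (fun _ => (1 : Module.End ℚ V)) d =
        hd (fam G ∅ univ) (vanSys (univ \ B) S s) d) ∧
      hd (fam G ∅ univ) (fun _ => (1 : Module.End ℚ V)) n ≤
        hd (fam G ∅ univ) (vanSys (univ \ B) S s) n := by
    intro B
    induction B using Finset.induction_on with
    | empty =>
      have : vanSys (univ \ (∅ : Finset X)) S s = fun _ => (1 : Module.End ℚ V) := by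
        funext x
        unfold vanSys
        rw [if_pos (by simp)]
      rw [this]
      exact ⟨fun _ _ => rfl, le_rfl⟩
    | insert u B huB ih =>
      have h1 : insert u (univ \ insert u B) = univ \ B := by
        ext x
        simp only [mem_insert, mem_univ, mem_sdiff, true_and]
        by_cases h3 : x = u
        · subst h3; simp [huB]
        · simp [h3]
      have h2 : u ∉ univ \ insert u B := by simp
      have hu : ∀ e : ℤ, 2 * e < 2 * n + 1 →
          ExAt {τ | τ ∈ fam G ∅ univ ∧ u ∈ τ} (tw {u} (vanSys (univ \ insert u B) S s)) e := by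
        intro e he
        rw [van_fam_mem]
        obtain ⟨S', hS'⟩ := vanSys_tw (s := s) (univ \ insert u B) S h2
        rw [hS']
        refine lower_van hs n {u} hdim (fun ρ h3 _ h5 => hg ρ h3 h5)
          (fun ρ h3 h4 h5 => hb ρ h3 ⟨u, h4 (mem_singleton_self u)⟩ h5) (insert u ∅)
          (by simp) (by simp) (univ \ insert u B) (by simp) S' e ?_
        simpa using he
      have hok : Ok (fam G ∅ univ) (vanSys (univ \ insert u B) S s) :=
        van_ok (vanSys_isSys hs _ S) ∅ univ
      rw [← h1, ← vanSys_update] at ih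
      refine ⟨fun d hd' => ?_, ?_⟩
      · rw [ih.1 d hd']
        exact hd_eq hok u (hu d (by omega)) (hu (d + 1) (by omega))
      · exact ih.2.trans (hd_le hok u (hu n (by omega)))
  have h := key univ
  rw [sdiff_self, bot_eq_empty, vanSys_empty] at h
  exact h

end Pool.Agent.Helper32.BL
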