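import Pool.Agent.Helper51.CD.CertDefs

/-!
# BL: manifolds tiled by right-angled blocks, definitions
-/

open Finset

namespace Pool.Agent.Helper32.BL

open Pool.Agent.Helper51.CD Pool.Agent.Helper51.CD.Cube

variable {X : Type}

/-- The clique complex of `G`. -/
def cliqueCx (G : SimpleGraph X) : Set (Finset X) := {τ | G.IsClique (τ : Set X)}

/-- The rational cochains of the family `F` on its members with `j` elements. -/
def cochains (F : Set (Finset X)) (j : ℕ) : Submodule ℚ (Finset X → ℚ) where
  carrier := {f | ∀ τ : Finset X, ¬ (τ ∈ F ∧ τ.card = j) → f τ = 0}
  add_mem' := by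
    intro a b ha hb τ h
    rw [Pi.add_apply, ha τ h, hb τ h, add_zero]
  zero_mem' := fun _ _ => rfl
  smul_mem' := by
    intro r a ha τ h
    rw [Pi.smul_apply, ha τ h, smul_zero]

open scoped Classical in
/-- The simplicial coboundary on the functions on the family `F`. -/
noncomputable def coboundary [LinearOrder X] (F : Set (Finset X)) :
    (Finset X → ℚ) →ₗ[ℚ] (Finset X → ℚ) where
  toFun f := fun τ => if τ ∈ F then ∑ x ∈ τ, sg x τ * f (τ.erase x) else 0
  map_add' := by
    intro a b
    funext τ
    by_cases h : τ ∈ F
    · simp only [if_pos h, Pi.add_apply, mul_add, Finset.sum_add_distrib]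
    · simp only [if_neg h, Pi.add_apply, add_zero]
  map_smul' := by
    intro r a
    funext τ
    by_cases h : τ ∈ F
    · simp only [if_pos h, Pi.smul_apply, smul_eq_mul, RingHom.id_apply, Finset.mul_sum]
      exact Finset.sum_congr rfl fun x _ => mul_left_comm _ _ _
    · simp only [if_neg h, Pi.smul_apply, smul_zero]

/-- The rational Betti number of dimension `j` of the family `F`: the dimension of the cocycles on
the members with `j + 1` elements minus that of the coboundaries. For a simplicial complex (with
the empty face) this is the reduced Betti number; for the set of faces of a complex that are not in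
a given subcomplex it is the Betti number of the pair. -/
noncomputable def betti [LinearOrder X] (F : Set (Finset X)) (j : ℕ) : ℤ :=
  (Module.finrank ℚ (cochains F (j + 1) ⊓ LinearMap.ker (coboundary F) :
    Submodule ℚ (Finset X → ℚ)) : ℤ) -
  Module.finrank ℚ ((cochains F j).map (coboundary F))

/-- The number of cliques with `j` elements. -/
noncomputable def fnum [Fintype X] (G : SimpleGraph X) (j : ℕ) : ℕ :=
  {τ : Finset X | G.IsClique (τ : Set X) ∧ τ.card = j}.ncard

/-- The clique complex of `H`, carried to `Z` by the embedding `e`. -/
def subCx {Y Z : Type} [LinearOrder Y] [LinearOrder Z] (H : SimpleGraph Y) (e : Y ↪o Z) :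
    Set (Finset Z) :=
  {σ | ∃ τ : Finset Y, H.IsClique (τ : Set Y) ∧ τ.map e.toEmbedding = σ}

/-- The excess of the pair of the complex `K` and the subcomplex `subCx H e`: the alternating sum
`b_n - b_(n+1) + ...` of the Betti numbers of `K` from dimension `n` on, plus the alternating sum
`- b_(n-1) + b_(n-2) - ...` of the Betti numbers of the pair below dimension `n`. (For a compact
manifold `K` of dimension `2n` with boundary `subCx H e` and without homology above dimension `n`
this is `b_n`.) -/
noncomputable def excess {Y Z : Type} [LinearOrder Y] [LinearOrder Z] [Fintype Z]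
    (H : SimpleGraph Y) (e : Y ↪o Z) (K : Set (Finset Z)) (n : ℕ) : ℤ :=
  ∑ j ∈ range (Fintype.card Z), (-1) ^ (n + j) *
    (if j < n then betti (K \ subCx H e) j else betti K j)

open scoped Classical in
/-- `Piece G n chi r`: a right-angled block of dimension `2n` with nerve `G`, Euler characteristic
`chi` and excess `r`. Either (`cert`) the clique complex of `G` is Eulerian and has a certificate
for the sign of its weighted clique count, and `r = (-1) ^ n * (chi - 1)`; or (`cover`) for some
`m > 0` there are a finite simplicial complex `K` with Euler characteristic `m * chi` and a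
subcomplex that is the clique complex of a graph `H` with `m` times as many cliques of each size as
`G` (for instance an `m`-fold covering of the block and its boundary), the links of the odd cliques
of `H` are tame, those of the nonempty even cliques have no reduced rational cohomology below the
middle (as in a homology manifold), and `r` is the excess of this pair divided by `m`. -/
inductive Piece [Fintype X] (G : SimpleGraph X) (n : ℕ) (chi : ℤ) : ℚ → Prop
  | cert (hE : EulerianFlag G n) (h : Cert G n ∅) : Piece G n chi ((-1) ^ n * (chi - 1))
  | cover (m : ℕ) (hm : 0 < m) (Y Z : Type) [Fintype Y] [Nonempty Y] [LinearOrder Y] [Fintype Z]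
      [LinearOrder Z] (H : SimpleGraph Y) (e : Y ↪o Z) (K : Set (Finset Z))
      (hK : ∀ τ ∈ K, ∀ σ : Finset Z, σ ⊆ τ → σ ∈ K)
      (hHK : subCx H e ⊆ K)
      (hchi : ∑ τ : Finset Z with τ ∈ K ∧ τ.Nonempty, (-1 : ℤ) ^ (τ.card + 1) = m * chi)
      (hf : ∀ j, 0 < j → fnum H j = m * fnum G j)
      (hdim : ∀ ρ : Finset Y, H.IsClique (ρ : Set Y) → ρ.card ≤ 2 * n)
      (hT : ∀ ρ : Finset Y, H.IsClique (ρ : Set Y) → Odd ρ.card →
        TameK H ↑(cliquesIn H (commonNbrs H ρ)))
      (hL : ∀ ρ : Finset Y, H.IsClique (ρ : Set Y) → ρ.Nonempty → Even ρ.card →
        ∀ j : ℕ, 2 * j + ρ.card < 2 * n → ExactLink H ρ j) :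
      Piece G n chi ((excess H e K n : ℚ) / m)

/-- A closed manifold tiled by right-angled blocks, recorded by its strata. Every block is a
compact manifold whose boundary is divided into mirrors, the nonempty intersections of mirrors are
described by the cliques of a finite graph `nerve b`; the strata of codimension `i ≥ 1` of the
tiling are cells, and the `2^i` corners at a stratum of codimension `i` correspond bijectively to
the cliques with `i` elements of the nerves. -/
structure BlockComplex where
  /-- the blocks -/
  Block : Type
  /-- the strata of codimension at least one, each of them an open cell -/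
  Cell : Type
  finBlock : Fintype Block
  finCell : Fintype Cell
  /-- the Euler characteristic of a block -/
  chi : Block → ℤ
  /-- the codimension of a stratum -/
  codim : Cell → ℕ
  /-- the mirrors (faces of codimension one) of a block -/
  Mirror : Block → Type
  finMirror : ∀ b, Fintype (Mirror b)
  /-- two mirrors of a block are adjacent when they intersect -/
  nerve : ∀ b, SimpleGraph (Mirror b)
  /-- the corners at a stratum, as faces of blocks -/
  corner : (Σ c : Cell, (Fin (codim c) → Bool)) ≃
    (Σ b : Block, {σ : Finset (Mirror b) // σ.Nonempty ∧
      (nerve b).IsClique (σ : Set (Mirror b))})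
  corner_card : ∀ p, (corner p).2.1.card = codim p.1

attribute [instance] BlockComplex.finBlock BlockComplex.finCell BlockComplex.finMirror

/-- The Euler characteristic of a closed manifold of even dimension tiled by right-angled blocks:
the sum over the blocks and the strata (a cell of codimension `i` has dimension of the same parity
as `i`, a block has the same Euler characteristic as its interior with compact supports). -/
def BlockComplex.euler (X : BlockComplex) : ℤ :=
  ∑ b : X.Block, X.chi b + ∑ c : X.Cell, (-1) ^ X.codim c

end Pool.Agent.Helper32.BL
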