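import Pool.Agent.Helper32.BL.Compare
import Pool.Agent.Helper51.CD.Const

/-!
# BL: Euler characteristics with Betti numbers, constant coefficients
-/

open Finset Pool.Agent.Helper51.CD

namespace Pool.Agent.Helper32.BL

variable {X : Type} [LinearOrder X]
variable {V : Type} [AddCommGroup V] [Module ℚ V]
variable {F : Set (Finset X)} {s : X → Module.End ℚ V} {d : ℤ}

theorem sum_zb (z b : ℕ → ℤ) (M : ℕ) :
    ∑ j ∈ range M, (-1 : ℤ) ^ j * (z j + b (j + 1)) =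
      ∑ j ∈ range M, (-1 : ℤ) ^ j * (z j - b j) + b 0 - (-1) ^ M * b M := by
  induction M with
  | zero => simp
  | succ M ih =>
    rw [sum_range_succ, sum_range_succ, ih, pow_succ]
    ring

/-- The Euler characteristic of the complex of `F`. -/
theorem euler_hd [Fintype X] [FiniteDimensional ℚ V] (K : Finset (Finset X))
    (hK : ∀ τ, τ ∈ K ↔ τ ∈ F) (M : ℕ) (hM : Fintype.card X + 1 < M) :
    ∑ τ ∈ K, (-1 : ℤ) ^ τ.card * (Module.finrank ℚ (eulFx s τ) : ℤ) =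
      ∑ j ∈ range M, (-1 : ℤ) ^ j * hd F s (j : ℤ) := by
  have h1 := sum_zb (fun j => (Module.finrank ℚ (eulZ F s (j : ℤ)) : ℤ))
    (fun j => (Module.finrank ℚ (eulB F s (j : ℤ)) : ℤ)) M
  have hb0 : Module.finrank ℚ (eulB F s ((0 : ℕ) : ℤ)) = 0 := by
    have h2 : (((0 : ℕ) : ℤ) - 1) = -1 := by norm_num
    have h3 : eulB F s ((0 : ℕ) : ℤ) = ⊥ := by
      unfold eulB
      rw [h2, eul_CC_neg, Submodule.map_bot]
    rw [h3, finrank_bot]
  have hbM : Module.finrank ℚ (eulB F s ((M : ℕ) : ℤ)) = 0 := by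
    have h2 : (((M : ℕ) : ℤ) - 1) = ((M - 1 : ℕ) : ℤ) := by
      rw [Nat.cast_sub (by omega)]
      simp
    have h3 : eulB F s ((M : ℕ) : ℤ) = ⊥ := by
      unfold eulB
      rw [h2, eul_CC_big F s (by omega), Submodule.map_bot]
    rw [h3, finrank_bot]
  simp only [hb0, hbM] at h1
  have h3 : ∑ τ ∈ K, (-1 : ℤ) ^ τ.card * (Module.finrank ℚ (eulFx s τ) : ℤ) =
      ∑ j ∈ range M, (-1 : ℤ) ^ j * (Module.finrank ℚ (CC F s (j : ℤ)) : ℤ) := by
    rw [← Finset.sum_fiberwise_of_maps_to (s := K) (t := range M) (g := fun τ => τ.card)]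
    · refine Finset.sum_congr rfl fun j _ => ?_
      rw [eul_finrank_CC F s j K hK]
      push_cast
      rw [Finset.mul_sum]
      refine Finset.sum_congr rfl fun τ hτ => ?_
      rw [(mem_filter.1 hτ).2]
    · intro τ _
      rw [mem_range]
      have := Finset.card_le_univ τ
      omega
  rw [h3]
  have h4 : ∀ j : ℕ, (Module.finrank ℚ (CC F s (j : ℤ)) : ℤ) =
      (Module.finrank ℚ (eulZ F s (j : ℤ)) : ℤ) +
        (Module.finrank ℚ (eulB F s ((j + 1 : ℕ) : ℤ)) : ℤ) := by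
    intro j
    have h8 := eul_rank F s (j : ℤ)
    rw [h8]
    push_cast
    rfl
  rw [Finset.sum_congr rfl (fun j _ => by rw [h4 j]), h1]
  simp [hd]

/-- **Euler characteristics, summed over all changes of signs.** -/
theorem euler_defect [Fintype X] [FiniteDimensional ℚ V] (h : Ok F s) (n : ℕ) (H : ℕ → ℤ)
    (hlow : ∀ (S : Set X) (d : ℕ), d < n → hd F (tw S s) d = H d)
    (hmid : ∀ S : Set X, H n ≤ hd F (tw S s) n)
    (hup : ∀ (S : Set X) (d : ℤ), (n : ℤ) < d → ExAt F (tw S s) d) (K : Finset (Finset X))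
    (hK : ∀ τ, τ ∈ K ↔ τ ∈ F) :
    (-1 : ℚ) ^ n * ∑ d ∈ range (n + 1), (-1 : ℚ) ^ d * (H d : ℚ) ≤
      (-1 : ℚ) ^ n * (Module.finrank ℚ V * ∑ τ ∈ K, (-1 / 2 : ℚ) ^ τ.card) := by
  have hone : ∀ S : Finset X, (-1 : ℤ) ^ n * ∑ d ∈ range (n + 1), (-1 : ℤ) ^ d * H d ≤
      (-1 : ℤ) ^ n * ∑ τ ∈ K, (-1 : ℤ) ^ τ.card *
        (Module.finrank ℚ (eulFx (tw (S : Set X) s) τ) : ℤ) := by
    intro S
    have e1 := Finset.sum_range_add (fun j => (-1 : ℤ) ^ j * hd F (tw (S : Set X) s) (j : ℤ))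
      (n + 1) (Fintype.card X + 2)
    have e2 : ∑ j ∈ range (Fintype.card X + 2), (-1 : ℤ) ^ (n + 1 + j) *
        hd F (tw (S : Set X) s) ((n + 1 + j : ℕ) : ℤ) = 0 := by
      refine Finset.sum_eq_zero fun j _ => ?_
      rw [hd_of_ex (eul_ok h (S : Set X)) (hup (S : Set X) _ (by push_cast; linarith)), mul_zero]
    rw [euler_hd K hK (n + 1 + (Fintype.card X + 2)) (by omega), e1, e2, add_zero,
      sum_range_succ, sum_range_succ]
    have e3 : ∑ d ∈ range n, (-1 : ℤ) ^ d * H d =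
        ∑ d ∈ range n, (-1 : ℤ) ^ d * hd F (tw (S : Set X) s) (d : ℤ) :=
      Finset.sum_congr rfl (fun d hd' => by rw [← hlow (S : Set X) d (mem_range.1 hd')])
    have h2 : ((-1 : ℤ) ^ n) * (-1) ^ n = 1 := by
      rw [← mul_pow]; simp
    have h3 := hmid S
    have h4 : ∀ a b : ℤ, (-1 : ℤ) ^ n * (a + (-1) ^ n * b) = (-1) ^ n * a + b := by
      intro a b
      rw [mul_add, ← mul_assoc, h2, one_mul]
    rw [e3, h4, h4]
    linarith
  have h1 : ∑ _S : Finset X, (-1 : ℤ) ^ n * ∑ d ∈ range (n + 1), (-1 : ℤ) ^ d * H d ≤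
      ∑ S : Finset X, (-1 : ℤ) ^ n * ∑ τ ∈ K, (-1 : ℤ) ^ τ.card *
      (Module.finrank ℚ (eulFx (tw (S : Set X) s) τ) : ℤ) :=
    Finset.sum_le_sum fun S _ => hone S
  have h2 : ∑ S : Finset X, (-1 : ℤ) ^ n * ∑ τ ∈ K, (-1 : ℤ) ^ τ.card *
      (Module.finrank ℚ (eulFx (tw (S : Set X) s) τ) : ℤ) =
      (-1 : ℤ) ^ n * ∑ τ ∈ K, (-1 : ℤ) ^ τ.card *
        ((∑ S : Finset X, Module.finrank ℚ (eulFx (tw (S : Set X) s) τ) : ℕ) : ℤ) := by
    rw [← Finset.mul_sum, Finset.sum_comm]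
    congr 1
    refine Finset.sum_congr rfl fun τ _ => ?_
    rw [← Finset.mul_sum]
    push_cast
    rfl
  rw [h2, Finset.sum_const, Finset.card_univ, Fintype.card_finset, nsmul_eq_mul] at h1
  have h3 : (((-1 : ℤ) ^ n * ∑ τ ∈ K, (-1 : ℤ) ^ τ.card *
        ((∑ S : Finset X, Module.finrank ℚ (eulFx (tw (S : Set X) s) τ) : ℕ) : ℤ) : ℤ) : ℚ) =
      2 ^ Fintype.card X *
        ((-1 : ℚ) ^ n * (Module.finrank ℚ V * ∑ τ ∈ K, (-1 / 2 : ℚ) ^ τ.card)) := by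
    have hτ : ∀ τ ∈ K, (-1 : ℚ) ^ τ.card * ∑ S : Finset X,
        (Module.finrank ℚ (eulFx (tw (S : Set X) s) τ) : ℚ) =
        2 ^ Fintype.card X * (Module.finrank ℚ V * (-1 / 2 : ℚ) ^ τ.card) := by
      intro τ hτ
      have h4 := eul_sumS h.inv τ (h.comm τ ((hK τ).1 hτ))
      have h5 : (2 : ℚ) ^ τ.card * ∑ S : Finset X,
          (Module.finrank ℚ (eulFx (tw (S : Set X) s) τ) : ℚ) =
          2 ^ Fintype.card X * Module.finrank ℚ V := by exact_mod_cast h4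
      rw [← mul_assoc, ← h5, div_pow]
      have h6 : (2 : ℚ) ^ τ.card ≠ 0 := by positivity
      field_simp
    push_cast
    rw [Finset.sum_congr rfl hτ, ← Finset.mul_sum, ← Finset.mul_sum]
    ring
  have h4 : (0 : ℚ) < 2 ^ Fintype.card X := by positivity
  have h5 : (2 : ℚ) ^ Fintype.card X * ((-1 : ℚ) ^ n * ∑ d ∈ range (n + 1), (-1 : ℚ) ^ d * (H d : ℚ))
      ≤ 2 ^ Fintype.card X *
        ((-1 : ℚ) ^ n * (Module.finrank ℚ V * ∑ τ ∈ K, (-1 / 2 : ℚ) ^ τ.card)) := by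
    rw [← h3]
    exact_mod_cast h1
  exact le_of_mul_le_mul_left h5 h4

end Pool.Agent.Helper32.BL
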