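import Pool.Agent.Helper32.BL.Pair
import Pool.Agent.Helper51.CD.Core2

/-!
# BL: the inequality for flag manifolds with Betti numbers, and its consequence for block complexes
-/

open Finset Pool.Agent.Helper51.CD

namespace Pool.Agent.Helper32.BL

open Pool.Agent.Helper51.CD.Cube

variable {X : Type}

/-- The alternating sum of the (unreduced) Betti numbers of dimension less than `n` of the clique
complex of `G`, for `n ≥ 1` and `G` nonempty. -/
noncomputable def lowEuler [LinearOrder X] (G : SimpleGraph X) (n : ℕ) : ℤ :=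
  1 + ∑ j ∈ range n, (-1) ^ j * betti (cliqueCx G) j

/-- **The Charney-Davis inequality with Betti numbers.** -/
theorem manifold_cd [Fintype X] [Nonempty X] [LinearOrder X] (G : SimpleGraph X) (n : ℕ)
    (hdim : ∀ τ : Finset X, G.IsClique (τ : Set X) → τ.card ≤ 2 * n)
    (hT : ∀ ρ : Finset X, G.IsClique (ρ : Set X) → Odd ρ.card →
      TameK G ↑(cliquesIn G (commonNbrs G ρ)))
    (hL : ∀ ρ : Finset X, G.IsClique (ρ : Set X) → ρ.Nonempty → Even ρ.card →
      ∀ j : ℕ, 2 * j + ρ.card < 2 * n → ExactLink G ρ j) :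
    0 ≤ (-1 : ℚ) ^ n * (kappa G univ - 1 + lowEuler G n) := by
  classical
  have hcx : ∀ ρ : Finset X, IsCx G ↑(cliquesIn G (commonNbrs G ρ)) := by
    intro ρ
    refine ⟨fun τ hτ => (mem_cliquesIn.1 hτ).2, fun τ hτ π hπ => ?_⟩
    obtain ⟨h1, h2⟩ := mem_cliquesIn.1 hτ
    exact mem_cliquesIn.2 ⟨hπ.trans h1, h2.subset (by exact_mod_cast hπ)⟩
  obtain ⟨Fm, hF⟩ := hasK_all (G := G)
    (𝒮 := {A | ∃ ρ : Finset X, G.IsClique (ρ : Set X) ∧ Odd ρ.card ∧
      A = ↑(cliquesIn G (commonNbrs G ρ))})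
    (by
      rintro A ⟨ρ, h1, h3, rfl⟩
      exact hcx ρ)
    (by
      rintro A ⟨ρ, h1, h3, rfl⟩
      exact hasK_of_tame (hT ρ h1 h3))
  have : FiniteDimensional ℚ Fm.V := Module.Finite.of_basis Fm.b
  have : Nontrivial Fm.V := ⟨⟨Fm.b (Classical.arbitrary Fm.ι), 0, Fm.b.ne_zero _⟩⟩
  have hs : IsSys G (Fm.s 1) := Fm.sys 1
  have hg : ∀ ρ : Finset X, G.IsClique (ρ : Set X) → Odd ρ.card → ∀ (S : Set X) (d : ℤ),
      ExAt (fam G ρ univ) (tw S (Fm.s 1)) d := by
    intro ρ h1 h3 S d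
    have h4 := hF _ ⟨ρ, h1, h3, rfl⟩ S (d - ρ.card)
    rw [core_fam] at h4
    have h5 := ex_star (van_isSys_tw hs S) ρ (commonNbrs G ρ) h1
      (fun x hx y hy => mem_commonNbrs.1 hx y hy) h4
    rw [sub_add_cancel, core_fam_univ] at h5
    exact h5
  have hcmp := compare hs n hdim hg (fun ρ h1 h2 h3 t ht h4 d hd =>
    const_ex ρ (commonNbrs G ρ) h1 (fun x => mem_commonNbrs) n (fun j hj f hf => by
      obtain ⟨g, hgg⟩ := hL ρ h1 h2 h3 j hj f (fun τ hτ hc =>
        hf τ (mem_cliquesIn.1 hτ).1 (mem_cliquesIn.1 hτ).2 hc)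
      exact ⟨g, fun τ h5 h6 h7 => hgg τ (mem_cliquesIn.2 ⟨h5, h6⟩) h7⟩) t ht h4 d hd)
  have hup := upper_rel hs n ∅ hdim (fun ρ h1 _ h3 => hg ρ h1 h3)
  set H : ℕ → ℤ := fun d => hd (fam G ∅ univ) (fun _ => (1 : Module.End ℚ Fm.V)) (d : ℤ) with hH
  have h0 := euler_defect (F := fam G ∅ univ) (van_ok hs ∅ univ) n H
    (fun S d hdn => ((hcmp S).1 d (by exact_mod_cast hdn)).symm) (fun S => (hcmp S).2)
    (fun S d hdn => hup ∅ (by simp) subset_rfl univ S d (by
      simp only [card_empty, Nat.cast_zero]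
      omega)) (cliquesIn G univ) (fun τ => by
      rw [mem_cliquesIn, eul_mem_fam]
      exact ⟨fun h => h.2, fun h => ⟨subset_univ _, h⟩⟩)
  have hH0 : H 0 = 0 := by
    rw [hH]
    change hd (fam G ∅ univ) (fun _ => (1 : Module.End ℚ Fm.V)) 0 = 0
    rw [hd_one, fam_eq, hd_zero (x := Classical.arbitrary X) (by
      change G.IsClique (({Classical.arbitrary X} : Finset X) : Set X)
      simp), mul_zero]
  have hHs : ∀ j : ℕ, H (j + 1) = Module.finrank ℚ Fm.V * betti (cliqueCx G) j := by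
    intro j
    rw [hH]
    change hd (fam G ∅ univ) (fun _ => (1 : Module.End ℚ Fm.V)) ((j + 1 : ℕ) : ℤ) = _
    rw [hd_one, fam_eq, hd_eq_betti]
  have e1 : ∑ d ∈ range (n + 1), (-1 : ℚ) ^ d * (H d : ℚ) =
      (Module.finrank ℚ Fm.V : ℚ) * (1 - lowEuler G n) := by
    rw [sum_range_succ', hH0]
    have : ∀ j ∈ range n, (-1 : ℚ) ^ (j + 1) * (H (j + 1) : ℚ) =
        (Module.finrank ℚ Fm.V : ℚ) * (-((-1 : ℚ) ^ j * betti (cliqueCx G) j)) := by
      intro j _
      rw [hHs]
      push_cast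
      ring
    rw [sum_congr rfl this, ← mul_sum]
    unfold lowEuler
    push_cast
    rw [sum_neg_distrib]
    ring
  rw [e1] at h0
  have hV : (0 : ℚ) < Module.finrank ℚ Fm.V := by
    have : 0 < Module.finrank ℚ Fm.V := Module.finrank_pos
    exact_mod_cast this
  change (-1 : ℚ) ^ n * ((Module.finrank ℚ Fm.V : ℚ) * (1 - lowEuler G n)) ≤
    (-1 : ℚ) ^ n * ((Module.finrank ℚ Fm.V : ℚ) * kappa G univ) at h0
  have h3 : 0 ≤ (Module.finrank ℚ Fm.V : ℚ) *
      ((-1 : ℚ) ^ n * (kappa G univ - 1 + lowEuler G n)) := by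
    have e2 : (Module.finrank ℚ Fm.V : ℚ) * ((-1 : ℚ) ^ n * (kappa G univ - 1 + lowEuler G n)) =
        (-1 : ℚ) ^ n * ((Module.finrank ℚ Fm.V : ℚ) * kappa G univ) -
        (-1 : ℚ) ^ n * ((Module.finrank ℚ Fm.V : ℚ) * (1 - lowEuler G n)) := by ring
    rw [e2]
    linarith
  exact nonneg_of_mul_nonneg_right h3 hV

theorem kappa_eq_fnum [Fintype X] (G : SimpleGraph X) :
    kappa G univ - 1 = ∑ j ∈ range (Fintype.card X), (-1 / 2 : ℚ) ^ (j + 1) * fnum G (j + 1) := by
  classical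
  have h1 : kappa G univ = ∑ j ∈ range (Fintype.card X + 1), (-1 / 2 : ℚ) ^ j * fnum G j := by
    unfold kappa
    rw [← Finset.sum_fiberwise_of_maps_to (s := cliquesIn G univ)
      (t := range (Fintype.card X + 1)) (g := fun τ => τ.card)]
    · refine sum_congr rfl fun j _ => ?_
      rw [sum_congr rfl (fun τ hτ => by rw [(mem_filter.1 hτ).2]), sum_const, nsmul_eq_mul,
        mul_comm]
      congr 2
      unfold fnum
      rw [← Set.ncard_coe_finset]
      congr 1
      ext τ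
      simp only [coe_filter, mem_cliquesIn, subset_univ, true_and, Set.mem_ofPred_eq]
    · intro τ _
      rw [mem_range]
      have := Finset.card_le_univ τ
      omega
  rw [h1, sum_range_succ']
  have h2 : fnum G 0 = 1 := by
    unfold fnum
    rw [Set.ncard_eq_one]
    refine ⟨∅, ?_⟩
    ext τ
    simp only [card_eq_zero, Set.mem_ofPred_eq, Set.mem_singleton_iff]
    constructor
    · rintro ⟨_, rfl⟩; rfl
    · rintro rfl; simp
  rw [h2]
  simp

/-- Complexes with proportional numbers of faces. -/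
theorem kappa_cover [Fintype X] {Y : Type} [Fintype Y] (G : SimpleGraph X) (H : SimpleGraph Y)
    (m : ℕ) (hf : ∀ j, 0 < j → fnum H j = m * fnum G j) :
    kappa H univ - 1 = m * (kappa G univ - 1) := by
  have hbig : ∀ {Z : Type} [Fintype Z] (K : SimpleGraph Z) (M : ℕ), Fintype.card Z ≤ M →
      kappa K univ - 1 = ∑ j ∈ range M, (-1 / 2 : ℚ) ^ (j + 1) * fnum K (j + 1) := by
    intro Z _ K M hM
    rw [kappa_eq_fnum]
    obtain ⟨r, rfl⟩ := Nat.exists_eq_add_of_le hM
    rw [Finset.sum_range_add, left_eq_add]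
    refine sum_eq_zero fun j _ => ?_
    have : fnum K (Fintype.card Z + j + 1) = 0 := by
      unfold fnum
      rw [Set.ncard_eq_zero]
      ext τ
      simp only [Set.mem_ofPred_eq, Set.mem_empty_iff_false, iff_false, not_and]
      intro _ h
      have := Finset.card_le_univ τ
      omega
    rw [this]
    simp
  rw [hbig H (Fintype.card X + Fintype.card Y) (by omega),
    hbig G (Fintype.card X + Fintype.card Y) (by omega), mul_sum]
  refine sum_congr rfl fun j _ => ?_
  rw [hf (j + 1) (by omega)]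
  push_cast
  ring

theorem piece_sign [Fintype X] {G : SimpleGraph X} {n : ℕ} {chi : ℤ} {r : ℚ}
    (h : Piece G n chi r) : r ≤ (-1 : ℚ) ^ n * (chi + (kappa G univ - 1)) := by
  classical
  cases h with
  | cert hE h =>
    have h1 := cert_sign hE h (by simp) (by simp)
    have h2 : commonNbrs G ∅ = univ := by
      ext v
      simp [mem_commonNbrs]
    rw [h2] at h1
    have e : (-1 : ℚ) ^ n * ((chi : ℚ) + (kappa G univ - 1)) =
        (-1 : ℚ) ^ n * ((chi : ℚ) - 1) + (-1) ^ n * kappa G univ := by ring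
    rw [e]
    simpa using h1
  | cover m hm Y Z H e K hK hHK hchi hf hdim hT hL =>
    have h1 := manifold_cd H n hdim (fun ρ h1 h2 => tameK_inst _ _ (hT ρ h1 h2)) hL
    rw [kappa_cover G H m hf] at h1
    have h2 := excess_le hHK n (univ.filter fun τ : Finset Z => τ ∈ K ∧ τ.Nonempty)
      (fun τ => by simp)
    rw [hchi] at h2
    have h3 : ((excess H e K n : ℤ) : ℚ) ≤ (-1 : ℚ) ^ n * (m * chi - lowEuler H n) := by
      unfold lowEuler
      exact_mod_cast h2
    have hm' : (0 : ℚ) < m := by exact_mod_cast hm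
    rw [div_le_iff₀ hm']
    have e : (-1 : ℚ) ^ n * (chi + (kappa G univ - 1)) * m =
        (-1 : ℚ) ^ n * (m * chi - lowEuler H n) +
        (-1 : ℚ) ^ n * (m * (kappa G univ - 1) + lowEuler H n) := by ring
    rw [e]
    linarith

theorem BlockComplex.euler_eq (X : BlockComplex) :
    (X.euler : ℚ) = ∑ b : X.Block, ((X.chi b : ℚ) + (kappa (X.nerve b) univ - 1)) := by
  classical
  have h1 : (∑ c : X.Cell, (-1 : ℚ) ^ X.codim c) =
      ∑ p : (Σ c : X.Cell, (Fin (X.codim c) → Bool)), (-1 / 2 : ℚ) ^ X.codim p.1 := by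
    rw [Fintype.sum_sigma]
    refine Finset.sum_congr rfl (fun c _ => ?_)
    change (-1 : ℚ) ^ X.codim c = ∑ _y : (Fin (X.codim c) → Bool), (-1 / 2 : ℚ) ^ X.codim c
    rw [Finset.sum_const, Finset.card_univ, Fintype.card_fun, Fintype.card_bool, Fintype.card_fin,
      nsmul_eq_mul]
    push_cast
    rw [← mul_pow]
    norm_num
  have h2 : ∑ p : (Σ c : X.Cell, (Fin (X.codim c) → Bool)), (-1 / 2 : ℚ) ^ X.codim p.1 =
      ∑ q : (Σ b : X.Block, {σ : Finset (X.Mirror b) // σ.Nonempty ∧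
        (X.nerve b).IsClique (σ : Set (X.Mirror b))}), (-1 / 2 : ℚ) ^ q.2.1.card := by
    refine Fintype.sum_equiv X.corner _ _ (fun p => ?_)
    rw [X.corner_card p]
  unfold BlockComplex.euler
  push_cast
  rw [h1, h2, Fintype.sum_sigma, ← sum_add_distrib]
  refine sum_congr rfl fun b _ => ?_
  congr 1
  have h3 : kappa (X.nerve b) univ =
      ∑ τ ∈ (cliquesIn (X.nerve b) univ).erase ∅, (-1 / 2 : ℚ) ^ τ.card + 1 := by
    unfold kappa
    rw [← sum_erase_add _ _ (show ∅ ∈ cliquesIn (X.nerve b) univ by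
      rw [mem_cliquesIn]; simp)]
    simp
  rw [h3, add_sub_cancel_right]
  refine Finset.sum_bij (fun σ _ => σ.1) ?_ ?_ ?_ ?_
  · intro σ _
    rw [mem_erase, mem_cliquesIn]
    exact ⟨σ.2.1.ne_empty, subset_univ _, σ.2.2⟩
  · intro a _ b _ h
    exact Subtype.ext h
  · intro c hc
    rw [mem_erase, mem_cliquesIn] at hc
    exact ⟨⟨c, nonempty_iff_ne_empty.2 hc.1, hc.2.2⟩, mem_univ _, rfl⟩
  · intro σ _
    rfl

/-- **Hopf's inequality for manifolds tiled by right-angled blocks.** -/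
theorem hopf_blocks (n : ℕ) (X : BlockComplex) (r : X.Block → ℚ)
    (h : ∀ b, Piece (X.nerve b) n (X.chi b) (r b)) :
    ∑ b, r b ≤ (-1) ^ n * X.euler := by
  rw [X.euler_eq, mul_sum]
  exact sum_le_sum fun b _ => piece_sign (h b)

end Pool.Agent.Helper32.BL
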