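import Pool.Agent.Helper32.BL.Tensor

/-!
# BL: the exact sequence of a pair, by ranks
-/

open Finset Pool.Agent.Helper51.CD

namespace Pool.Agent.Helper32.BL

section

variable {X : Type} [LinearOrder X]

/-- dimension of the cochains -/
noncomputable def cnum (F : Set (Finset X)) (j : ℕ) : ℤ := Module.finrank ℚ (cochains F j)

/-- dimension of the coboundaries -/
noncomputable def bnum (F : Set (Finset X)) (j : ℕ) : ℤ :=
  Module.finrank ℚ ((cochains F j).map (coboundary F))

theorem betti_eq [Fintype X] (F : Set (Finset X)) (j : ℕ) :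
    betti F j = cnum F (j + 1) - bnum F (j + 1) - bnum F j := by
  have := rk (coboundary F) (cochains F (j + 1))
  unfold betti cnum bnum
  omega

theorem sum_betti [Fintype X] (F : Set (Finset X)) (n : ℕ) :
    ∑ j ∈ range n, (-1 : ℤ) ^ j * betti F j =
      ∑ j ∈ range n, (-1 : ℤ) ^ j * cnum F (j + 1) - bnum F 0 + (-1) ^ n * bnum F n := by
  induction n with
  | zero => simp
  | succ n ih =>
    rw [sum_range_succ, sum_range_succ, ih, betti_eq, pow_succ]
    ring

theorem map_le (F : Set (Finset X)) (j : ℕ) :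
    (cochains F j).map (coboundary F) ≤ cochains F (j + 1) := by
  rintro _ ⟨f, hf, rfl⟩ τ hτ
  by_cases h : τ ∈ F
  · rw [coboundary_mem f h]
    refine sum_eq_zero fun x hx => ?_
    rw [hf (τ.erase x) (fun h1 => hτ ⟨h, ?_⟩), mul_zero]
    have := h1.2
    rw [card_erase_of_mem hx] at this
    have := card_pos.2 ⟨x, hx⟩
    omega
  · exact coboundary_notMem f h

omit [LinearOrder X] in
theorem cochains_big [Fintype X] (F : Set (Finset X)) {j : ℕ} (h : Fintype.card X < j) :
    cochains F j = ⊥ := by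
  rw [eq_bot_iff]
  intro f hf
  rw [Submodule.mem_bot]
  funext τ
  refine hf τ (fun h1 => ?_)
  have := Finset.card_le_univ τ
  omega

theorem betti_big [Fintype X] (F : Set (Finset X)) {j : ℕ} (h : Fintype.card X ≤ j) :
    betti F j = 0 := by
  have h1 := cochains_big F (show Fintype.card X < j + 1 by omega)
  have h2 := map_le F j
  rw [h1, le_bot_iff] at h2
  unfold betti
  rw [h1, h2, bot_inf_eq]
  simp

theorem bnum_zero [Fintype X] {F : Set (Finset X)} {x : X} (hx : {x} ∈ F) :
    bnum F 0 = cnum F 0 := by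
  have := rk (coboundary F) (cochains F 0)
  rw [ker_zero hx, finrank_bot] at this
  unfold bnum cnum
  omega

/-- The Euler characteristic and the Betti numbers. -/
theorem chi_betti [Fintype X] {F : Set (Finset X)} {x : X} (h0 : ∅ ∈ F) (hx : {x} ∈ F) (M : ℕ)
    (hM : Fintype.card X < M) (K : Finset (Finset X)) (hK : ∀ τ, τ ∈ K ↔ τ ∈ F ∧ τ.Nonempty) :
    ∑ τ ∈ K, (-1 : ℤ) ^ (τ.card + 1) = 1 + ∑ j ∈ range M, (-1 : ℤ) ^ j * betti F j := by
  have h1 := euler_hd (F := F) (s := fun _ => (1 : Module.End ℚ ℚ)) (insert ∅ K) (fun τ => by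
    rw [mem_insert, hK]
    constructor
    · rintro (h | h)
      · rw [h]; exact h0
      · exact h.1
    · intro h
      rcases τ.eq_empty_or_nonempty with h2 | h2
      · exact Or.inl h2
      · exact Or.inr ⟨h, h2⟩) (M + 1) (by omega)
  have h2 : ∀ τ : Finset X, Module.finrank ℚ (eulFx (fun _ => (1 : Module.End ℚ ℚ)) τ) = 1 := by
    intro τ
    have : eulFx (fun _ => (1 : Module.End ℚ ℚ)) τ = ⊤ := by
      rw [eq_top_iff]
      intro v _
      rw [eul_mem_Fx]
      intro y _
      rfl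
    rw [this, finrank_top, Module.finrank_self]
  have h3 : ∅ ∉ K := by
    intro h
    exact Finset.not_nonempty_empty ((hK ∅).1 h).2
  rw [sum_insert h3, sum_range_succ'] at h1
  have h4 : ∑ j ∈ range M, (-1 : ℤ) ^ (j + 1) * hd F (fun _ => (1 : Module.End ℚ ℚ))
      ((j + 1 : ℕ) : ℤ) = - ∑ j ∈ range M, (-1 : ℤ) ^ j * betti F j := by
    rw [← sum_neg_distrib]
    refine sum_congr rfl fun j _ => ?_
    rw [hd_eq_betti, pow_succ]
    ring
  have h5 : ∑ τ ∈ K, (-1 : ℤ) ^ τ.card *
      (Module.finrank ℚ (eulFx (fun _ => (1 : Module.End ℚ ℚ)) τ) : ℤ) =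
      - ∑ τ ∈ K, (-1 : ℤ) ^ (τ.card + 1) := by
    rw [← sum_neg_distrib]
    refine sum_congr rfl fun τ _ => ?_
    rw [h2, pow_succ]
    push_cast
    ring
  rw [h4, h5, h2, Nat.cast_zero, hd_zero hx] at h1
  simp only [card_empty, pow_zero, Nat.cast_one, mul_one, mul_zero, add_zero] at h1
  linarith

end

section

variable {Y Z : Type} [LinearOrder Y] [LinearOrder Z]
variable {H : SimpleGraph Y} {e : Y ↪o Z} {K : Set (Finset Z)}

open scoped Classical in
/-- restriction to the subcomplex -/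
noncomputable def restr (H : SimpleGraph Y) (e : Y ↪o Z) :
    (Finset Z → ℚ) →ₗ[ℚ] (Finset Y → ℚ) where
  toFun f := fun τ => if H.IsClique (τ : Set Y) then f (τ.map e.toEmbedding) else 0
  map_add' := by
    intro a b
    funext τ
    by_cases h : H.IsClique (τ : Set Y)
    · simp only [if_pos h, Pi.add_apply]
    · simp only [if_neg h, Pi.add_apply, add_zero]
  map_smul' := by
    intro r a
    funext τ
    by_cases h : H.IsClique (τ : Set Y)
    · simp only [if_pos h, Pi.smul_apply, smul_eq_mul, RingHom.id_apply]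
    · simp only [if_neg h, Pi.smul_apply, smul_zero]

theorem restr_clique (f : Finset Z → ℚ) {τ : Finset Y} (h : H.IsClique (τ : Set Y)) :
    restr H e f τ = f (τ.map e.toEmbedding) := if_pos h

theorem restr_not (f : Finset Z → ℚ) {τ : Finset Y} (h : ¬ H.IsClique (τ : Set Y)) :
    restr H e f τ = 0 := if_neg h

theorem subCx_down {σ ρ : Finset Z} (hσ : σ ∈ subCx H e) (h : ρ ⊆ σ) : ρ ∈ subCx H e := by
  obtain ⟨τ, hτ, rfl⟩ := hσ
  obtain ⟨u, hu, rfl⟩ := Finset.subset_map_iff.1 h
  exact ⟨u, hτ.subset (by exact_mod_cast hu), rfl⟩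

theorem mem_subCx {τ : Finset Y} (h : H.IsClique (τ : Set Y)) :
    τ.map e.toEmbedding ∈ subCx H e := ⟨τ, h, rfl⟩

theorem sg_map (x : Y) (τ : Finset Y) : sg (e x) (τ.map e.toEmbedding) = sg x τ := by
  unfold sg
  congr 1
  rw [Finset.filter_map, card_map]
  congr 1
  refine filter_congr fun y _ => ?_
  simp

theorem restr_coboundary (hHK : subCx H e ⊆ K) (f : Finset Z → ℚ) :
    restr H e (coboundary K f) = coboundary (cliqueCx H) (restr H e f) := by
  funext τ
  by_cases h : H.IsClique (τ : Set Y)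
  · rw [restr_clique _ h, coboundary_mem f (hHK (mem_subCx h)), coboundary_mem _ (show
      τ ∈ cliqueCx H from h), sum_map]
    refine sum_congr rfl fun x _ => ?_
    have h1 : H.IsClique ((τ.erase x : Finset Y) : Set Y) :=
      h.subset (by exact_mod_cast erase_subset x τ)
    rw [restr_clique _ h1, map_erase]
    change sg (e x) _ * _ = _
    rw [sg_map]
  · rw [restr_not _ h, coboundary_notMem _ (show τ ∉ cliqueCx H from h)]

theorem map_restr (hHK : subCx H e ⊆ K) (j : ℕ) :
    (cochains K j).map (restr H e) = cochains (cliqueCx H) j := by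
  classical
  apply le_antisymm
  · rintro _ ⟨f, hf, rfl⟩ τ hτ
    by_cases h : H.IsClique (τ : Set Y)
    · rw [restr_clique _ h]
      refine hf _ (fun h1 => hτ ⟨h, ?_⟩)
      rw [← h1.2, card_map]
    · exact restr_not _ h
  · intro g hg
    refine ⟨fun σ => if h : ∃ τ : Finset Y, τ.map e.toEmbedding = σ then g h.choose else 0,
      ?_, ?_⟩
    · intro σ hσ
      by_cases h : ∃ τ : Finset Y, τ.map e.toEmbedding = σ
      · change (if h : ∃ τ : Finset Y, τ.map e.toEmbedding = σ then g h.choose else 0) = 0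
        rw [dif_pos h]
        refine hg _ (fun h1 => hσ ⟨?_, ?_⟩)
        · rw [← h.choose_spec]
          exact hHK (mem_subCx h1.1)
        · rw [← h.choose_spec, card_map]
          exact h1.2
      · change (if h : ∃ τ : Finset Y, τ.map e.toEmbedding = σ then g h.choose else 0) = 0
        rw [dif_neg h]
    · funext τ
      by_cases h : H.IsClique (τ : Set Y)
      · rw [restr_clique _ h]
        have h2 : ∃ τ' : Finset Y, τ'.map e.toEmbedding = τ.map e.toEmbedding := ⟨τ, rfl⟩
        rw [dif_pos h2]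
        congr 1
        exact Finset.map_injective _ h2.choose_spec
      · rw [restr_not _ h]
        exact (hg τ (fun h1 => h h1.1)).symm

theorem inf_ker_restr (j : ℕ) :
    cochains K j ⊓ LinearMap.ker (restr H e) = cochains (K \ subCx H e) j := by
  apply le_antisymm
  · intro f hf τ hτ
    obtain ⟨h1, h2⟩ := Submodule.mem_inf.1 hf
    by_cases h3 : τ ∈ subCx H e
    · obtain ⟨ρ, hρ, rfl⟩ := h3
      have := congrFun (LinearMap.mem_ker.1 h2) ρ
      rwa [restr_clique _ hρ] at this
    · exact h1 τ (fun h4 => hτ ⟨⟨h4.1, h3⟩, h4.2⟩)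
  · intro f hf
    refine Submodule.mem_inf.2 ⟨fun τ hτ => hf τ (fun h => hτ ⟨h.1.1, h.2⟩), ?_⟩
    rw [LinearMap.mem_ker]
    funext τ
    by_cases h : H.IsClique (τ : Set Y)
    · rw [restr_clique _ h]
      exact hf _ (fun h1 => h1.1.2 (mem_subCx h))
    · exact restr_not _ h

theorem cnum_pair [Fintype Y] [Fintype Z] (hHK : subCx H e ⊆ K) (j : ℕ) :
    cnum K j = cnum (cliqueCx H) j + cnum (K \ subCx H e) j := by
  have := rk (restr H e) (cochains K j)
  rw [map_restr hHK, inf_ker_restr] at this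
  unfold cnum
  omega

theorem coboundary_rel {f : Finset Z → ℚ} {j : ℕ} (hf : f ∈ cochains (K \ subCx H e) j) :
    coboundary (K \ subCx H e) f = coboundary K f := by
  funext τ
  by_cases h : τ ∈ K
  · by_cases h1 : τ ∈ subCx H e
    · rw [coboundary_notMem f (fun h2 => h2.2 h1), coboundary_mem f h]
      symm
      refine sum_eq_zero fun x _ => ?_
      rw [hf (τ.erase x) (fun h2 => h2.1.2 (subCx_down h1 (erase_subset x τ))), mul_zero]
    · rw [coboundary_mem f (show τ ∈ K \ subCx H e from ⟨h, h1⟩), coboundary_mem f h]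
  · rw [coboundary_notMem f (fun h2 => h h2.1), coboundary_notMem f h]

theorem bnum_pair [Fintype Y] [Fintype Z] (hHK : subCx H e ⊆ K) (j : ℕ) :
    bnum (cliqueCx H) j + bnum (K \ subCx H e) j ≤ bnum K j := by
  have h1 := rk (restr H e) ((cochains K j).map (coboundary K))
  have h2 : ((cochains K j).map (coboundary K)).map (restr H e) =
      (cochains (cliqueCx H) j).map (coboundary (cliqueCx H)) := by
    rw [← map_restr hHK j]
    ext g
    constructor
    · rintro ⟨_, ⟨f, hf, rfl⟩, rfl⟩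
      exact ⟨restr H e f, ⟨f, hf, rfl⟩, (restr_coboundary hHK f).symm⟩
    · rintro ⟨_, ⟨f, hf, rfl⟩, rfl⟩
      exact ⟨coboundary K f, ⟨f, hf, rfl⟩, restr_coboundary hHK f⟩
  have h3 : (cochains (K \ subCx H e) j).map (coboundary (K \ subCx H e)) ≤
      (cochains K j).map (coboundary K) ⊓ LinearMap.ker (restr H e) := by
    rintro _ ⟨f, hf, rfl⟩
    have h4 := hf
    rw [SetLike.mem_coe, ← inf_ker_restr] at h4
    obtain ⟨h5, h6⟩ := Submodule.mem_inf.1 h4
    rw [coboundary_rel hf]
    refine Submodule.mem_inf.2 ⟨⟨f, h5, rfl⟩, ?_⟩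
    rw [LinearMap.mem_ker, restr_coboundary hHK, LinearMap.mem_ker.1 h6, map_zero]
  have h4 := Submodule.finrank_mono h3
  rw [h2] at h1
  unfold bnum
  omega

/-- The exact sequence of the pair, cut off after `n` terms. -/
theorem pair_ineq [Fintype Y] [Nonempty Y] [Fintype Z] (hHK : subCx H e ⊆ K) (n : ℕ) :
    0 ≤ (-1 : ℤ) ^ n * (∑ j ∈ range n, (-1 : ℤ) ^ j * betti K j -
      ∑ j ∈ range n, (-1 : ℤ) ^ j * betti (K \ subCx H e) j -
      ∑ j ∈ range n, (-1 : ℤ) ^ j * betti (cliqueCx H) j) := by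
  obtain ⟨y⟩ : Nonempty Y := inferInstance
  have hy : ({y} : Finset Y) ∈ cliqueCx H := by
    change H.IsClique (({y} : Finset Y) : Set Y)
    simp
  have hz : ({e y} : Finset Z) ∈ K := by
    apply hHK
    exact ⟨{y}, hy, by simp⟩
  have h0 : (∅ : Finset Z) ∈ subCx H e := ⟨∅, by simp, by simp⟩
  have e0 : cochains (K \ subCx H e) 0 = ⊥ := by
    rw [eq_bot_iff]
    intro f hf
    rw [Submodule.mem_bot]
    funext τ
    refine hf τ (fun h => ?_)
    rw [card_eq_zero] at h
    rw [h.2] at h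
    exact h.1.2 h0
  have e1 : bnum (K \ subCx H e) 0 = 0 := by
    unfold bnum
    rw [e0, Submodule.map_bot, finrank_bot]
    rfl
  have e2 : cnum (K \ subCx H e) 0 = 0 := by
    unfold cnum
    rw [e0, finrank_bot]
    rfl
  have e3 := cnum_pair hHK 0
  have e4 : ∑ j ∈ range n, (-1 : ℤ) ^ j * cnum K (j + 1) =
      ∑ j ∈ range n, (-1 : ℤ) ^ j * cnum (cliqueCx H) (j + 1) +
        ∑ j ∈ range n, (-1 : ℤ) ^ j * cnum (K \ subCx H e) (j + 1) := by
    rw [← sum_add_distrib]
    refine sum_congr rfl fun j _ => ?_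
    rw [cnum_pair hHK (j + 1)]
    ring
  rw [sum_betti, sum_betti, sum_betti, bnum_zero hz, bnum_zero hy, e1, e3, e2, e4]
  have e5 := bnum_pair hHK n
  have e6 : (-1 : ℤ) ^ n * (-1) ^ n = 1 := by
    rw [← mul_pow]; simp
  have e7 : ∀ A B C a b c d : ℤ, (-1 : ℤ) ^ n * (A + B - (C + 0) + (-1) ^ n * a -
      (B - 0 + (-1) ^ n * b) - (A - C + (-1) ^ n * c)) = ((-1 : ℤ) ^ n * (-1) ^ n) * (a - b - c) := by
    intros
    ring
  rw [e7 _ _ _ _ _ _ 0, e6]
  linarith

/-- The excess of a pair. -/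
theorem excess_le [Fintype Y] [Nonempty Y] [Fintype Z] (hHK : subCx H e ⊆ K)
    (n : ℕ) (L : Finset (Finset Z)) (hL : ∀ τ, τ ∈ L ↔ τ ∈ K ∧ τ.Nonempty) :
    excess H e K n ≤ (-1 : ℤ) ^ n * (∑ τ ∈ L, (-1 : ℤ) ^ (τ.card + 1) -
      (1 + ∑ j ∈ range n, (-1 : ℤ) ^ j * betti (cliqueCx H) j)) := by
  obtain ⟨y⟩ : Nonempty Y := inferInstance
  have hy : ({y} : Finset Y) ∈ cliqueCx H := by
    change H.IsClique (({y} : Finset Y) : Set Y)
    simp
  have hz : ({e y} : Finset Z) ∈ K := by
    apply hHK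
    exact ⟨{y}, hy, by simp⟩
  have h0 : (∅ : Finset Z) ∈ K := hHK ⟨∅, by simp, by simp⟩
  have h1 := pair_ineq hHK n
  have h2 := chi_betti h0 hz (n + (Fintype.card Z + 1)) (by omega) L hL
  rw [Finset.sum_range_add] at h2
  have h3 : excess H e K n = (-1 : ℤ) ^ n * (∑ j ∈ range n, (-1 : ℤ) ^ j *
      betti (K \ subCx H e) j + ∑ j ∈ range (Fintype.card Z + 1), (-1 : ℤ) ^ (n + j) *
        betti K (n + j)) := by
    have h4 : excess H e K n = ∑ j ∈ range (n + (Fintype.card Z + 1)), (-1 : ℤ) ^ (n + j) *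
        (if j < n then betti (K \ subCx H e) j else betti K j) := by
      unfold excess
      refine sum_subset (range_subset_range.2 (by omega)) ?_
      intro j _ hj
      rw [mem_range, not_lt] at hj
      rw [betti_big _ hj, betti_big _ hj]
      simp
    rw [h4, Finset.sum_range_add, mul_add, mul_sum, mul_sum]
    congr 1
    · refine sum_congr rfl fun j hj => ?_
      rw [if_pos (mem_range.1 hj), pow_add]
      ring
    · refine sum_congr rfl fun j _ => ?_
      rw [if_neg (by omega), pow_add (-1 : ℤ) n (n + j)]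
      ring
  rw [h3, h2]
  have e7 : ∀ A B C D : ℤ, (-1 : ℤ) ^ n * (1 + (A + B) - (1 + C)) =
      (-1 : ℤ) ^ n * (D + B) + (-1) ^ n * (A - D - C) := by
    intros
    ring
  rw [e7 _ _ _ (∑ j ∈ range n, (-1 : ℤ) ^ j * betti (K \ subCx H e) j)]
  linarith

end

end Pool.Agent.Helper32.BL
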