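import Pool.Agent.Helper32.BL.EulerB
import Pool.Agent.Helper32.BL.Defs

/-!
# BL: constant coefficients and Betti numbers
-/

open Finset Pool.Agent.Helper51.CD

namespace Pool.Agent.Helper32.BL

open Pool.Agent.Helper51.CD.Cube

variable {X : Type} [LinearOrder X]
variable {V : Type} [AddCommGroup V] [Module ℚ V]

/-- coordinates -/
noncomputable def coor {ι : Type} (B : Module.Basis ι ℚ V) (i : ι) :
    (Finset X → V) →ₗ[ℚ] (Finset X → ℚ) :=
  LinearMap.pi (fun τ => (B.coord i) ∘ₗ LinearMap.proj τ)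

/-- the inclusion of a coordinate -/
noncomputable def emb {ι : Type} (B : Module.Basis ι ℚ V) (i : ι) :
    (Finset X → ℚ) →ₗ[ℚ] (Finset X → V) :=
  LinearMap.pi (fun τ => (LinearMap.toSpanSingleton ℚ V (B i)) ∘ₗ LinearMap.proj τ)

omit [LinearOrder X] in
theorem coor_apply {ι : Type} (B : Module.Basis ι ℚ V) (i : ι) (c : Finset X → V)
    (τ : Finset X) : coor B i c τ = B.repr (c τ) i := rfl

omit [LinearOrder X] in
theorem emb_apply {ι : Type} (B : Module.Basis ι ℚ V) (i : ι) (f : Finset X → ℚ)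
    (τ : Finset X) : emb B i f τ = f τ • B i := rfl

omit [LinearOrder X] in
theorem finrank_tensor [Fintype X] {ι : Type} [Fintype ι] (B : Module.Basis ι ℚ V)
    (S : Submodule ℚ (Finset X → V)) (T : Submodule ℚ (Finset X → ℚ))
    (h1 : ∀ c ∈ S, ∀ i, coor B i c ∈ T) (h2 : ∀ f ∈ T, ∀ i, emb B i f ∈ S) :
    Module.finrank ℚ S = Fintype.card ι * Module.finrank ℚ T := by
  classical
  let e : S ≃ₗ[ℚ] (ι → T) :=
    { toFun := fun c i => ⟨coor B i c.1, h1 c.1 c.2 i⟩
      map_add' := by
        intro a b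
        funext i
        apply Subtype.ext
        simp
      map_smul' := by
        intro r a
        funext i
        apply Subtype.ext
        simp
      invFun := fun f => ⟨∑ i, emb B i (f i).1, S.sum_mem fun i _ => h2 _ (f i).2 i⟩
      left_inv := by
        intro c
        apply Subtype.ext
        funext τ
        simp only [Finset.sum_apply, emb_apply, coor_apply]
        exact B.sum_repr (c.1 τ)
      right_inv := by
        intro f
        funext i
        apply Subtype.ext
        funext τ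
        simp only [coor_apply, Finset.sum_apply, emb_apply]
        rw [map_sum, Finsupp.finsetSum_apply, Finset.sum_eq_single i]
        · simp
        · intro j _ hj
          simp [hj]
        · intro h
          exact absurd (mem_univ i) h }
  rw [e.finrank_eq, Module.finrank_pi_fintype]
  simp

theorem coor_Di {ι : Type} (B : Module.Basis ι ℚ V) (i : ι) (F : Set (Finset X))
    (c : Finset X → V) :
    coor B i (Di F (fun _ => (1 : Module.End ℚ V)) c) =
      Di F (fun _ => (1 : Module.End ℚ ℚ)) (coor B i c) := by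
  funext τ
  rw [coor_apply, Di_apply, Di_apply]
  by_cases h : τ ∈ F
  · rw [if_pos h, if_pos h, map_sum, Finsupp.finsetSum_apply]
    refine Finset.sum_congr rfl fun x _ => ?_
    rw [const_Pr_one, const_Pr_one, Module.End.one_apply, Module.End.one_apply, map_smul,
      Finsupp.smul_apply, coor_apply]
  · rw [if_neg h, if_neg h]
    simp

theorem emb_Di {ι : Type} (B : Module.Basis ι ℚ V) (i : ι) (F : Set (Finset X))
    (f : Finset X → ℚ) :
    emb B i (Di F (fun _ => (1 : Module.End ℚ ℚ)) f) =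
      Di F (fun _ => (1 : Module.End ℚ V)) (emb B i f) := by
  funext τ
  rw [emb_apply, Di_apply, Di_apply]
  by_cases h : τ ∈ F
  · rw [if_pos h, if_pos h, Finset.sum_smul]
    refine Finset.sum_congr rfl fun x _ => ?_
    rw [const_Pr_one, const_Pr_one, Module.End.one_apply, Module.End.one_apply, emb_apply,
      smul_eq_mul, mul_smul]
  · rw [if_neg h, if_neg h, zero_smul]

omit [LinearOrder X] in
theorem coor_CC {ι : Type} (B : Module.Basis ι ℚ V) (i : ι) {F : Set (Finset X)} {d : ℤ}
    {c : Finset X → V} (hc : c ∈ CC F (fun _ => (1 : Module.End ℚ V)) d) :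
    coor B i c ∈ CC F (fun _ => (1 : Module.End ℚ ℚ)) d := by
  refine ⟨fun τ h => ?_, fun τ h => ?_, fun τ x _ => rfl⟩
  · rw [coor_apply, hc.1 τ h]; simp
  · rw [coor_apply, hc.2.1 τ h]; simp

omit [LinearOrder X] in
theorem emb_CC {ι : Type} (B : Module.Basis ι ℚ V) (i : ι) {F : Set (Finset X)} {d : ℤ}
    {f : Finset X → ℚ} (hf : f ∈ CC F (fun _ => (1 : Module.End ℚ ℚ)) d) :
    emb B i f ∈ CC F (fun _ => (1 : Module.End ℚ V)) d := by
  refine ⟨fun τ h => ?_, fun τ h => ?_, fun τ x _ => rfl⟩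
  · rw [emb_apply, hf.1 τ h, zero_smul]
  · rw [emb_apply, hf.2.1 τ h, zero_smul]

/-- The cohomology with trivial reflections is the constant one. -/
theorem hd_one [Fintype X] [FiniteDimensional ℚ V] (F : Set (Finset X)) (d : ℤ) :
    hd F (fun _ => (1 : Module.End ℚ V)) d =
      Module.finrank ℚ V * hd F (fun _ => (1 : Module.End ℚ ℚ)) d := by
  have B := Module.finBasis ℚ V
  have h1 : Module.finrank ℚ (eulZ F (fun _ => (1 : Module.End ℚ V)) d) =
      Fintype.card (Fin (Module.finrank ℚ V)) *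
        Module.finrank ℚ (eulZ F (fun _ => (1 : Module.End ℚ ℚ)) d) := by
    refine finrank_tensor B _ _ ?_ ?_
    · intro c hc i
      obtain ⟨h1, h2⟩ := Submodule.mem_inf.1 hc
      refine Submodule.mem_inf.2 ⟨coor_CC B i h1, ?_⟩
      rw [LinearMap.mem_ker] at h2 ⊢
      rw [← coor_Di, h2, map_zero]
    · intro f hf i
      obtain ⟨h1, h2⟩ := Submodule.mem_inf.1 hf
      refine Submodule.mem_inf.2 ⟨emb_CC B i h1, ?_⟩
      rw [LinearMap.mem_ker] at h2 ⊢
      rw [← emb_Di, h2, map_zero]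
  have h2 : Module.finrank ℚ (eulB F (fun _ => (1 : Module.End ℚ V)) d) =
      Fintype.card (Fin (Module.finrank ℚ V)) *
        Module.finrank ℚ (eulB F (fun _ => (1 : Module.End ℚ ℚ)) d) := by
    refine finrank_tensor B _ _ ?_ ?_
    · intro c hc i
      obtain ⟨b, hb, rfl⟩ := Submodule.mem_map.1 hc
      rw [coor_Di]
      exact Submodule.mem_map.2 ⟨_, coor_CC B i hb, rfl⟩
    · intro f hf i
      obtain ⟨b, hb, rfl⟩ := Submodule.mem_map.1 hf
      rw [emb_Di]
      exact Submodule.mem_map.2 ⟨_, emb_CC B i hb, rfl⟩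
  unfold hd
  rw [h1, h2, Fintype.card_fin]
  push_cast
  ring

omit [LinearOrder X] in
theorem CC_eq_cochains (F : Set (Finset X)) (j : ℕ) :
    CC F (fun _ => (1 : Module.End ℚ ℚ)) (j : ℤ) = cochains F j := by
  ext c
  constructor
  · rintro ⟨h1, h2, _⟩ τ h
    by_cases h3 : τ ∈ F
    · exact h2 τ (fun h4 => h ⟨h3, by exact_mod_cast h4⟩)
    · exact h1 τ h3
  · intro h
    exact ⟨fun τ h1 => h τ (fun h2 => h1 h2.1),
      fun τ h1 => h τ (fun h2 => h1 (by exact_mod_cast h2.2)), fun τ x _ => rfl⟩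

open scoped Classical in
theorem coboundary_apply (F : Set (Finset X)) (f : Finset X → ℚ) (τ : Finset X) :
    coboundary F f τ = if τ ∈ F then ∑ x ∈ τ, sg x τ * f (τ.erase x) else 0 := rfl

theorem coboundary_mem {F : Set (Finset X)} (f : Finset X → ℚ) {τ : Finset X} (h : τ ∈ F) :
    coboundary F f τ = ∑ x ∈ τ, sg x τ * f (τ.erase x) := by
  rw [coboundary_apply, if_pos h]

theorem coboundary_notMem {F : Set (Finset X)} (f : Finset X → ℚ) {τ : Finset X} (h : τ ∉ F) :
    coboundary F f τ = 0 := by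
  rw [coboundary_apply, if_neg h]

theorem Di_eq_coboundary (F : Set (Finset X)) :
    Di F (fun _ => (1 : Module.End ℚ ℚ)) = coboundary F := by
  apply LinearMap.ext
  intro c
  funext τ
  rw [Di_apply]
  by_cases h : τ ∈ F
  · rw [if_pos h, coboundary_mem c h]
    refine Finset.sum_congr rfl fun x _ => ?_
    rw [const_Pr_one, Module.End.one_apply, smul_eq_mul]
  · rw [if_neg h, coboundary_notMem c h]

theorem hd_eq_betti (F : Set (Finset X)) (j : ℕ) :
    hd F (fun _ => (1 : Module.End ℚ ℚ)) ((j + 1 : ℕ) : ℤ) = betti F j := by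
  have e1 : eulZ F (fun _ => (1 : Module.End ℚ ℚ)) ((j + 1 : ℕ) : ℤ) =
      cochains F (j + 1) ⊓ LinearMap.ker (coboundary F) := by
    unfold eulZ
    rw [CC_eq_cochains, Di_eq_coboundary]
  have e2 : eulB F (fun _ => (1 : Module.End ℚ ℚ)) ((j + 1 : ℕ) : ℤ) =
      (cochains F j).map (coboundary F) := by
    unfold eulB
    rw [show (((j + 1 : ℕ) : ℤ) - 1) = (j : ℤ) by push_cast; ring, CC_eq_cochains,
      Di_eq_coboundary]
  unfold hd betti
  rw [e1, e2]

theorem ker_zero {F : Set (Finset X)} {x : X} (hx : {x} ∈ F) :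
    cochains F 0 ⊓ LinearMap.ker (coboundary F) = ⊥ := by
  rw [eq_bot_iff]
  intro f hf
  obtain ⟨h1, h2⟩ := Submodule.mem_inf.1 hf
  rw [Submodule.mem_bot]
  funext τ
  by_cases h : τ.card = 0
  · rw [card_eq_zero] at h
    subst h
    have h3 := congrFun (LinearMap.mem_ker.1 h2) {x}
    rw [coboundary_mem f hx, sum_singleton] at h3
    have h4 : ({x} : Finset X).erase x = ∅ := by simp
    rw [h4] at h3
    have h5 := congrArg (fun v => sg x {x} * v) h3
    simp only [Pi.zero_apply, mul_zero] at h5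
    rw [← mul_assoc, sg_sq, one_mul] at h5
    exact h5
  · exact h1 τ (fun h3 => h h3.2)

theorem hd_zero {F : Set (Finset X)} {x : X} (hx : {x} ∈ F) :
    hd F (fun _ => (1 : Module.End ℚ ℚ)) 0 = 0 := by
  have e1 : eulZ F (fun _ => (1 : Module.End ℚ ℚ)) ((0 : ℕ) : ℤ) = ⊥ := by
    unfold eulZ
    rw [CC_eq_cochains, Di_eq_coboundary, ker_zero hx]
  have e2 : eulB F (fun _ => (1 : Module.End ℚ ℚ)) ((0 : ℕ) : ℤ) = ⊥ := by
    unfold eulB
    rw [show (((0 : ℕ) : ℤ) - 1) = -1 by norm_num, eul_CC_neg, Submodule.map_bot]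
  change hd F (fun _ => (1 : Module.End ℚ ℚ)) ((0 : ℕ) : ℤ) = 0
  unfold hd
  rw [e1, e2, sub_self]

theorem fam_eq [Fintype X] (G : SimpleGraph X) : fam G ∅ univ = cliqueCx G := by
  ext τ
  rw [eul_mem_fam]
  rfl

end Pool.Agent.Helper32.BL
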